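import Pool.Agent.helper28.T2.SpecB

/-!
# Row t2:TK (MP_93f80a_lc): the thick case
-/

set_option autoImplicit false

open Finset Classical

namespace Pool.Agent.T2

open Pool.Agent.TW

theorem TK_ee_symm {V : Type} [Fintype V] (G : SimpleGraph V) (X Y : Finset V) :
    ee G X Y = ee G Y X := by
  unfold ee
  refine Finset.card_bij (fun p _ => (p.2, p.1)) ?_ ?_ ?_
  · intro p hp
    rw [Finset.mem_filter] at hp ⊢
    exact ⟨Finset.mem_univ _, hp.2.1.symm, hp.2.2.2, hp.2.2.1⟩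
  · intro p _ q _ h
    have h1 := congrArg Prod.fst h
    have h2 := congrArg Prod.snd h
    exact Prod.ext h2 h1
  · intro p hp
    rw [Finset.mem_filter] at hp
    refine ⟨(p.2, p.1), ?_, rfl⟩
    rw [Finset.mem_filter]
    exact ⟨Finset.mem_univ _, hp.2.1.symm, hp.2.2.2, hp.2.2.1⟩

/-- the numerical condition -/
theorem TK_num (h n n₁ q l F : ℕ) (hl : 2 ^ 20 ≤ l) (hlog : 1 + Real.log n₁ ≤ l)
    (hbig : h * (2 * n) * (l ^ 50 * F ^ 8) ≤ n₁) (hq : n₁ ≤ 12 * F ^ 2 * q) (hF : 1 ≤ F)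
    (hn₁ : 1 ≤ n₁) :
    (2 : ℝ) ^ 170 * h * ((2 * n : ℕ) : ℝ) * ((1 : ℕ) : ℝ) ^ 4 * (n₁ : ℝ) ^ 3 *
      (1 + Real.log n₁) ^ 29 ≤ (q : ℝ) ^ 4 := by
  have hl' : (2 : ℝ) ^ 20 ≤ l := by exact_mod_cast hl
  have hL1 : (1 : ℝ) ≤ l := le_trans (one_le_pow₀ (by norm_num)) hl'
  have hL0 : (0 : ℝ) < l := by linarith
  have hF1 : (1 : ℝ) ≤ F := by exact_mod_cast hF
  have hlog0 : 0 ≤ Real.log (n₁ : ℝ) := Real.log_natCast_nonneg n₁
  have hb : (h : ℝ) * (2 * n) * ((l : ℝ) ^ 50 * (F : ℝ) ^ 8) ≤ n₁ := by exact_mod_cast hbig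
  have hq' : (n₁ : ℝ) ≤ 12 * (F : ℝ) ^ 2 * q := by exact_mod_cast hq
  have h29 : (1 + Real.log (n₁ : ℝ)) ^ 29 ≤ (l : ℝ) ^ 29 := pow_le_pow_left₀ (by linarith) hlog 29
  have h170 : (2 : ℝ) ^ 170 ≤ (l : ℝ) ^ 9 := by
    calc (2 : ℝ) ^ 170 ≤ (2 ^ 20) ^ 9 := by norm_num
      _ ≤ (l : ℝ) ^ 9 := pow_le_pow_left₀ (by norm_num) hl' 9
  have h12 : (12 : ℝ) ^ 4 ≤ (l : ℝ) := le_trans (by norm_num) hl'
  have hq4 : (n₁ : ℝ) ^ 4 ≤ 12 ^ 4 * (F : ℝ) ^ 8 * (q : ℝ) ^ 4 := by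
    calc (n₁ : ℝ) ^ 4 ≤ (12 * (F : ℝ) ^ 2 * q) ^ 4 := pow_le_pow_left₀ (Nat.cast_nonneg _) hq' 4
      _ = 12 ^ 4 * (F : ℝ) ^ 8 * (q : ℝ) ^ 4 := by ring
  set P : ℝ := (h : ℝ) * (2 * n) with hP
  have hP0 : 0 ≤ P := by positivity
  have hcast : ((2 * n : ℕ) : ℝ) = 2 * (n : ℝ) := by push_cast; ring
  have hF8 : (0 : ℝ) < (F : ℝ) ^ 8 := by positivity
  -- 12^4 F^8 * LHS ≤ 12^4 F^8 q^4
  have key : 12 ^ 4 * (F : ℝ) ^ 8 * ((l : ℝ) ^ 9 * P * (n₁ : ℝ) ^ 3 * (l : ℝ) ^ 29) ≤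
      12 ^ 4 * (F : ℝ) ^ 8 * (q : ℝ) ^ 4 := by
    refine le_trans ?_ hq4
    calc 12 ^ 4 * (F : ℝ) ^ 8 * ((l : ℝ) ^ 9 * P * (n₁ : ℝ) ^ 3 * (l : ℝ) ^ 29)
        ≤ (l : ℝ) * (F : ℝ) ^ 8 * ((l : ℝ) ^ 9 * P * (n₁ : ℝ) ^ 3 * (l : ℝ) ^ 29) := by gcongr
      _ = (P * ((l : ℝ) ^ 39 * (F : ℝ) ^ 8)) * (n₁ : ℝ) ^ 3 := by ring
      _ ≤ (P * ((l : ℝ) ^ 50 * (F : ℝ) ^ 8)) * (n₁ : ℝ) ^ 3 := by
          have h50 : (l : ℝ) ^ 39 ≤ (l : ℝ) ^ 50 := pow_le_pow_right₀ hL1 (by norm_num)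
          gcongr
      _ ≤ n₁ * (n₁ : ℝ) ^ 3 := by gcongr
      _ = (n₁ : ℝ) ^ 4 := by ring
  have key2 := le_of_mul_le_mul_left key (by positivity)
  refine le_trans ?_ key2
  rw [hcast, Nat.cast_one, one_pow, mul_one]
  calc (2 : ℝ) ^ 170 * h * (2 * (n : ℝ)) * (n₁ : ℝ) ^ 3 * (1 + Real.log n₁) ^ 29
      = (2 : ℝ) ^ 170 * P * (n₁ : ℝ) ^ 3 * (1 + Real.log n₁) ^ 29 := by rw [hP]; ring
    _ ≤ (l : ℝ) ^ 9 * P * (n₁ : ℝ) ^ 3 * (l : ℝ) ^ 29 := by gcongr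

theorem TK (hTKW : TKW_stmt) (hTRF : TRF_stmt) (hIND : IND_stmt) : TK_stmt := by
  intro V ι κ _ _ _ G C₁ C₂ m d₁ d₂ mu F Th A D r n l h hN hG hF hd₁ hA hr hn hnum hl hlog hh hbig
  have hN' := hN
  obtain ⟨hmu, hm, -, -, hdeg, -, -⟩ := hN
  obtain ⟨hDG, hdis, hEW, hmee⟩ := hG
  set n₁ := Fintype.card ι with hn₁
  have hl1 : 1 ≤ l := le_trans (by norm_num) hl
  -- n₁ is large
  have hbig2 : 12 * F ^ 2 ≤ n₁ := by
    calc 12 * F ^ 2 ≤ l ^ 50 * F ^ 8 := by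
          refine Nat.mul_le_mul ?_ (Nat.pow_le_pow_right hF (by norm_num))
          calc 12 ≤ 2 ^ 20 := by norm_num
            _ ≤ l := hl
            _ = l ^ 1 := (pow_one l).symm
            _ ≤ l ^ 50 := Nat.pow_le_pow_right hl1 (by norm_num)
      _ = 1 * (l ^ 50 * F ^ 8) := (one_mul _).symm
      _ ≤ h * (2 * n) * (l ^ 50 * F ^ 8) := Nat.mul_le_mul_right _ (by nlinarith)
      _ ≤ n₁ := hbig
  have hF2 : 1 ≤ F ^ 2 := Nat.one_le_pow _ _ hF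
  have hn₁1 : 1 ≤ n₁ := by omega
  -- degrees
  have htot : n₁ * d₁ ≤ F * tot m := by
    unfold tot
    rw [Finset.mul_sum]
    calc n₁ * d₁ = ∑ _a : ι, d₁ := by rw [Finset.sum_const, Finset.card_univ, smul_eq_mul]
      _ ≤ ∑ a : ι, F * ∑ b, m a b := Finset.sum_le_sum fun a _ => (hdeg a).1
  -- q
  set q := (tot m - 1) / (6 * (F * d₁)) with hq
  have hFd : 0 < 6 * (F * d₁) := by positivity
  have htot1 : 1 ≤ tot m := by
    by_contra hcon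
    have h0 : tot m = 0 := by omega
    rw [h0] at htot
    have : 0 < n₁ * d₁ := Nat.mul_pos hn₁1 hd₁
    omega
  have hq1 : 6 * (F * (d₁ * q)) < tot m := by
    have h1 : 6 * (F * d₁) * q ≤ tot m - 1 := Nat.mul_div_le _ _
    have h2 : 6 * (F * (d₁ * q)) = 6 * (F * d₁) * q := by ring
    omega
  have hq2 : tot m ≤ 6 * (F * d₁) * (q + 1) := by
    have h1 : tot m - 1 < 6 * (F * d₁) * (q + 1) := Nat.lt_mul_div_succ _ hFd
    omega
  have hq3 : n₁ ≤ 6 * F ^ 2 * (q + 1) := by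
    have h1 : n₁ * d₁ ≤ (6 * F ^ 2 * (q + 1)) * d₁ := by
      calc n₁ * d₁ ≤ F * tot m := htot
        _ ≤ F * (6 * (F * d₁) * (q + 1)) := Nat.mul_le_mul_left _ hq2
        _ = (6 * F ^ 2 * (q + 1)) * d₁ := by ring
    exact Nat.le_of_mul_le_mul_right h1 hd₁
  have hq4 : n₁ ≤ 12 * F ^ 2 * q := by
    have e : 6 * F ^ 2 * (q + 1) = 6 * F ^ 2 * q + 6 * F ^ 2 := by ring
    have e2 : 12 * F ^ 2 * q = 2 * (6 * F ^ 2 * q) := by ring
    omega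
  have hno := hTKW ι κ m d₁ d₂ mu F Th q hN' hF hq1
  -- the small modulator theorem
  set X : Finset (ι ⊕ κ) := univ.filter (fun x => x.isRight) with hX
  have hXc : ∀ _inst : DecidableEq (ι ⊕ κ), (univ \ X).card ≤ n₁ := by
    intro _inst
    have hsub : univ \ X ⊆ (univ : Finset ι).image (Sum.inl : ι → ι ⊕ κ) := by
      intro x hx
      rw [Finset.mem_sdiff, hX, Finset.mem_filter] at hx
      rcases x with a | b
      · exact Finset.mem_image_of_mem _ (Finset.mem_univ a)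
      · exact absurd ⟨Finset.mem_univ _, rfl⟩ hx.2
    calc (univ \ X).card ≤ ((univ : Finset ι).image (Sum.inl : ι → ι ⊕ κ)).card :=
          Finset.card_le_card hsub
      _ ≤ (univ : Finset ι).card := Finset.card_image_le
      _ = n₁ := Finset.card_univ
  have hXRT : ∃ B, RT (bip m) 1 B X := by
    refine hIND (ι ⊕ κ) (bip m) X ?_
    intro u hu v hv hadj
    rw [hX, Finset.mem_filter] at hu hv
    rcases hadj with ⟨a, b, h1, h2, -⟩ | ⟨a, b, h1, h2, -⟩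
    · rw [h1] at hu
      exact absurd hu.2 (by simp)
    · rw [h1] at hv
      exact absurd hv.2 (by simp)
  obtain ⟨W, hW1, hW2⟩ := Pool.Agent.XT.modu h (2 * n) q 1 n₁ hh (by omega) le_rfl hn₁1 (ι ⊕ κ)
    (bip m) X (hXc (fun a b => Classical.propDecidable (a = b))) hXRT hno (TK_num h n n₁ q l F hl hlog hbig hq4 hF hn₁1)
  refine ⟨fun i => (W i).biUnion (Sum.elim C₁ C₂), ?_, ?_, ?_⟩
  · intro i j hij
    rw [Finset.disjoint_biUnion_left]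
    intro x hx
    rw [Finset.disjoint_biUnion_right]
    intro y hy
    refine hdis x y ?_
    rintro rfl
    exact (Finset.disjoint_left.1 (hW1 i j hij)) hx hy
  · intro i
    exact Finset.biUnion_subset_biUnion_of_subset_left _ (Finset.subset_univ _)
  · intro i
    refine hTRF V (ι ⊕ κ) G (bip m) (Sum.elim C₁ C₂) (W i) A D mu r n hDG hdis hEW ?_ hA hmu hn
      hnum ?_
    · intro x y hadj
      have key : ∀ a b, m a b ≠ 0 → mu ≤ ee G (C₁ a) (C₂ b) := by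
        intro a b hab
        have h1 := (hm a b).resolve_left hab
        have h2 := (hmee a b).resolve_left hab
        rw [← h2]
        exact h1.1
      rcases hadj with ⟨a, b, h1, h2, h3⟩ | ⟨a, b, h1, h2, h3⟩
      · rw [h1, h2]
        exact key a b h3
      · rw [h1, h2, TK_ee_symm]
        exact key a b h3
    · rintro ⟨B, hB⟩
      exact hW2 i (RTD JT (ι ⊕ κ) (bip m) (2 * n) B (W i) hB)

end Pool.Agent.T2
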